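import Pool.Agent.H305R3.FC9

/-! Exterior determination for the fractional conductivity equation with bounded measurable,
uniformly elliptic conductivities. -/

set_option autoImplicit false

open MeasureTheory Set
open Pool.Agent.H305R3.FC

namespace Pool.Agent.Results.MP_cfec03_an.ExteriorDetermination

/-- `u ∈ H^s(ℝ^n)` is the weak solution of the fractional conductivity equation in `Ω` with exterior
value `f`: `u - f` lies in the closure of `C_c^∞(Ω)` in `H^s(ℝ^n)` and `B_γ(u, φ) = 0` for all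
`φ ∈ C_c^∞(Ω)`. -/
def IsSolution {n : ℕ} (s : ℝ) (Ω : Set (EuclideanSpace ℝ (Fin n)))
    (γ f u : EuclideanSpace ℝ (Fin n) → ℝ) : Prop :=
  MemHs s u ∧ MemHt s Ω (fun x => u x - f x) ∧ ∀ φ, TestFun Ω φ → Bform s γ u φ = 0

/-- The Dirichlet-to-Neumann maps of `γ₁` and `γ₂` agree on `W`: `⟨Λ_{γ₁} f, g⟩ = ⟨Λ_{γ₂} f, g⟩` for
all `f, g ∈ C_c^∞(W)`. -/
def SameData {n : ℕ} (s : ℝ) (Ω W : Set (EuclideanSpace ℝ (Fin n)))
    (γ₁ γ₂ : EuclideanSpace ℝ (Fin n) → ℝ) : Prop :=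
  ∀ f g : EuclideanSpace ℝ (Fin n) → ℝ, TestFun W f → TestFun W g →
    ∀ u₁ u₂ : EuclideanSpace ℝ (Fin n) → ℝ, IsSolution s Ω γ₁ f u₁ → IsSolution s Ω γ₂ f u₂ →
      Bform s γ₁ u₁ g = Bform s γ₂ u₂ g

/-- Exterior determination: for every `n ≥ 1`, `0 < s < 1`, every open `Ω` bounded in one
direction, every open `W` in the exterior of `Ω` and all uniformly elliptic `γ₁, γ₂ ∈ L^∞(ℝ^n)`
with the same partial data on `W` one has `γ₁ = γ₂` almost everywhere in `W`; if `W` is nonempty,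
then even `γ₁ = γ₂` almost everywhere in `ℝ^n`. -/
theorem result (n : ℕ) (s : ℝ) (hn : 1 ≤ n) (hs : 0 < s) (hs1 : s < 1)
    (Ω : Set (EuclideanSpace ℝ (Fin n))) (hΩ : IsOpen Ω) (hb : BddOneDir Ω)
    (γ₁ γ₂ : EuclideanSpace ℝ (Fin n) → ℝ) (h1 : Elliptic γ₁) (h2 : Elliptic γ₂)
    (W : Set (EuclideanSpace ℝ (Fin n))) (hW : IsOpen W) (hWΩ : W ⊆ (closure Ω)ᶜ)
    (hDN : SameData s Ω W γ₁ γ₂) :
    γ₁ =ᵐ[volume.restrict W] γ₂ ∧ (W.Nonempty → γ₁ =ᵐ[volume] γ₂) := by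
  have key : W.Nonempty → γ₁ =ᵐ[volume] γ₂ := by
    intro hne
    have hsol : ∀ {γ f u : EuclideanSpace ℝ (Fin n) → ℝ}, IsSol s Ω γ f u →
        IsSolution s Ω γ f u := by
      intro γ f u h
      refine ⟨h.1, h.2.1, fun φ hφ => h.2.2 φ ⟨hφ.memHs hn hs hs1, fun ε hε => ⟨φ, hφ, ?_⟩⟩⟩
      have : hsSq s (fun x => φ x - φ x) = 0 := by
        unfold hsSq
        simp
      rw [this]
      exact hε
    exact main hn hs hs1 hΩ hb hW hne hWΩ h1 h2 fun f g hf hg u₁ u₂ hu₁ hu₂ =>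
      hDN f g hf hg u₁ u₂ (hsol hu₁) (hsol hu₂)
  refine ⟨?_, key⟩
  rcases W.eq_empty_or_nonempty with h | h
  · rw [h, Measure.restrict_empty, ae_zero]
    exact Filter.eventually_bot
  · exact ae_restrict_of_ae (key h)

end Pool.Agent.Results.MP_cfec03_an.ExteriorDetermination
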